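import Mathlib

namespace Pool.Agent.Results.MP_d6d41b_al.Counter

/-- strong o-conjugacy in a monoid S (so that S with identity adjoined is S itself) -/
def SO {S : Type} [Monoid S] (a b : S) : Prop :=
  ∃ g h : S, g * h * g = g ∧ h * g * h = h ∧ a * g = g * b ∧ b * h = h * a

/-- the same relation for self-maps of two possibly different sets -/
def SOf {A B : Type} (a : A → A) (b : B → B) : Prop :=
  ∃ (g : B → A) (h : A → B), (∀ x, g (h (g x)) = g x) ∧ (∀ x, h (g (h x)) = h x) ∧
    (∀ x, a (g x) = g (b x)) ∧ ∀ x, b (h x) = h (a x)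

theorem transport {A B : Type} (a : A → A) (b : B → B) (e : A ≃ ℕ) (f : B ≃ ℕ) :
    SO (S := Function.End ℕ) (e ∘ a ∘ e.symm) (f ∘ b ∘ f.symm) ↔ SOf a b := by
  constructor
  · rintro ⟨g, h, h1, h2, h3, h4⟩
    refine ⟨e.symm ∘ g ∘ f, f.symm ∘ h ∘ e, fun x => ?_, fun x => ?_, fun x => ?_, fun x => ?_⟩
    · have : g (h (g (f x))) = g (f x) := congrFun h1 (f x)
      simp [this]
    · have : h (g (h (e x))) = h (e x) := congrFun h2 (e x)
      simp [this]
    · have : e (a (e.symm (g (f x)))) = g (f (b (f.symm (f x)))) := congrFun h3 (f x)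
      apply e.injective
      simpa using this
    · have : f (b (f.symm (h (e x)))) = h (e (a (e.symm (e x)))) := congrFun h4 (e x)
      apply f.injective
      simpa using this
  · rintro ⟨g, h, h1, h2, h3, h4⟩
    refine ⟨e ∘ g ∘ f.symm, f ∘ h ∘ e.symm, funext fun x => ?_, funext fun x => ?_,
      funext fun x => ?_, funext fun x => ?_⟩
    · change e (g (f.symm (f (h (e.symm (e (g (f.symm x)))))))) = e (g (f.symm x))
      simp [h1]
    · change f (h (e.symm (e (g (f.symm (f (h (e.symm x)))))))) = f (h (e.symm x))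
      simp [h2]
    · change e (a (e.symm (e (g (f.symm x))))) = e (g (f.symm (f (b (f.symm x)))))
      simp [h3]
    · change f (b (f.symm (f (h (e.symm x))))) = f (h (e.symm (e (a (e.symm x)))))
      simp [h4]

/-- comb with a tooth of length 2 k + c at the k-th point of the spine -/
abbrev Comb (c : ℕ) := {p : ℕ × ℕ // p.2 ≤ 2 * p.1 + c}

def step (c : ℕ) (p : Comb c) : Comb c :=
  if p.1.2 = 0 then ⟨(p.1.1 + 1, 0), Nat.zero_le _⟩ else ⟨(p.1.1, p.1.2 - 1), by
    have := p.2; simp only; omega⟩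

def sp (c k : ℕ) : Comb c := ⟨(k, 0), Nat.zero_le _⟩

theorem step_sp (c k : ℕ) : step c (sp c k) = sp c (k + 1) := by simp [step, sp]

theorem iter_sp (c k n : ℕ) : (step c)^[n] (sp c k) = sp c (k + n) := by
  induction n with
  | zero => rfl
  | succ n ih => rw [Function.iterate_succ_apply', ih, step_sp]; rfl

theorem iter_down (c k j : ℕ) (h : j ≤ 2 * k + c) : (step c)^[j] ⟨(k, j), h⟩ = sp c k := by
  induction j with
  | zero => rfl
  | succ j ih =>
    rw [Function.iterate_succ_apply, ← ih (by omega)]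
    simp [step]

theorem depth (c n : ℕ) (p : Comb c) :
    n + ((step c)^[n] p).1.2 ≤ 2 * ((step c)^[n] p).1.1 + c := by
  induction n with
  | zero => simpa using p.2
  | succ n ih =>
    rw [Function.iterate_succ_apply']
    generalize (step c)^[n] p = q at ih
    unfold step
    split_ifs with h <;> simp only <;> omega

theorem hom {c d : ℕ} (h : Comb c → Comb d) (hh : ∀ x, step d (h x) = h (step c x)) :
    ∃ p q : ℕ, ∀ k, h (sp c (q + k)) = sp d (p + k) ∧ 2 * (q + k) + c ≤ 2 * (p + k) + d := by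
  have hi : ∀ n x, (step d)^[n] (h x) = h ((step c)^[n] x) := fun n x =>
    ((Function.Semiconj.iterate_right (fun x => (hh x).symm) n) x).symm
  obtain ⟨⟨p, q⟩, hpq, e⟩ : ∃ pq hpq, h (sp c 0) = ⟨pq, hpq⟩ := ⟨_, _, rfl⟩
  refine ⟨p, q, fun k => ?_⟩
  have h1 : h (sp c (q + k)) = sp d (p + k) := by
    have := hi (k + q) (sp c 0)
    rw [iter_sp, e, Function.iterate_add_apply, iter_down, iter_sp, zero_add, add_comm k q] at this
    exact this.symm
  refine ⟨h1, ?_⟩
  have h2 := depth d (2 * (q + k) + c) (h ⟨(q + k, 2 * (q + k) + c), le_rfl⟩)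
  rw [hi, iter_down, h1] at h2
  simpa [sp] using h2

def inc (p : Comb 0) : Comb 1 := ⟨p.1, by have := p.2; omega⟩

def sh (p : Comb 1) : Comb 0 := ⟨(p.1.1 + 1, p.1.2), by have := p.2; simp only; omega⟩

theorem inc_step (p : Comb 0) : step 1 (inc p) = inc (step 0 p) := by
  unfold step inc; split_ifs <;> rfl

theorem sh_step (p : Comb 1) : step 0 (sh p) = sh (step 1 p) := by
  unfold step sh; split_ifs <;> rfl

theorem not_so : ¬ SOf (step 0) (step 1) := by
  rintro ⟨g, h, -, h2, h3, h4⟩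
  obtain ⟨p, q, hp⟩ := hom h h4
  obtain ⟨p', q', hp'⟩ := hom g h3
  have a1 := (hp 0).2
  have a2 := (hp' 0).2
  have b1 := (hp q').1
  have b2 := (hp' p).1
  have b3 := (hp (p' + p - q)).1
  have b4 := h2 (sp 0 (q + q'))
  have e : q + (p' + p - q) = p' + p := by omega
  rw [b1, add_comm p q', b2, ← e, b3] at b4
  simp only [sp, Subtype.mk.injEq, Prod.mk.injEq, and_true] at b4
  omega

instance (c : ℕ) : Infinite (Comb c) :=
  Infinite.of_injective (sp c) fun a b h => by simpa [sp] using h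

theorem result : (∀ x : Function.End ℕ, ∃ y, x = x * y * x) ∧
    ∃ a b c : Function.End ℕ, SO a b ∧ SO b c ∧ ¬ SO a c := by
  refine ⟨fun x => ⟨Function.invFun x, funext fun n => ?_⟩, ?_⟩
  · exact (Function.invFun_eq ⟨n, rfl⟩).symm
  obtain ⟨e0⟩ := nonempty_equiv_of_countable (α := Comb 0) (β := ℕ)
  obtain ⟨e1⟩ := nonempty_equiv_of_countable (α := Comb 1) (β := ℕ)
  obtain ⟨e2⟩ := nonempty_equiv_of_countable (α := Comb 0 ⊕ Comb 1) (β := ℕ)
  refine ⟨_, _, _, (transport (step 0) (Sum.map (step 0) (step 1)) e0 e2).2 ?_,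
    (transport _ (step 1) e2 e1).2 ?_, fun h => not_so ((transport _ _ e0 e1).1 h)⟩
  · refine ⟨Sum.elim id sh, Sum.inl, fun _ => rfl, fun _ => rfl, ?_, fun _ => rfl⟩
    rintro (x | x)
    · rfl
    · exact sh_step x
  · refine ⟨Sum.inr, Sum.elim inc id, fun _ => rfl, fun _ => rfl, fun _ => rfl, ?_⟩
    rintro (x | x)
    · exact inc_step x
    · rfl

end Pool.Agent.Results.MP_d6d41b_al.Counter
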